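import Pool.Agent.MP_c69980_ag.H43.Spec9

/-!
A section with a pole at one given divisor only.
-/

set_option autoImplicit false

namespace Pool.Agent.MP_c69980_ag.H43

open Finset

section Val
variable {K : Type} [Field K]

lemma h0_pi {V : ValuationSubring K} (hV : IsDiscreteValuationRing V) :
    ∃ π : K, π ≠ 0 ∧ V.valuation π < 1 := by
  obtain ⟨π, hπ⟩ := IsDiscreteValuationRing.exists_irreducible V
  refine ⟨π, fun e => hπ.ne_zero (Subtype.ext e), (V.valuation_lt_one_iff _).1 ?_⟩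
  rw [hπ.maximalIdeal_eq]
  exact Ideal.mem_span_singleton_self π

lemma h0_gt {V : ValuationSubring K} {x : K} : x ∉ V ↔ 1 < V.valuation x := by
  rw [← V.valuation_le_one_iff, not_le]

lemma h0_arch {V : ValuationSubring K} (hV : IsDiscreteValuationRing V) {q : K}
    (hq : V.valuation q < 1) (x : K) : ∃ N : ℕ, ∀ n, N ≤ n → V.valuation (q ^ n * x) < 1 := by
  have q1 : q ∈ V := (V.valuation_le_one_iff _).1 hq.le
  obtain ⟨N, hN⟩ : ∃ N : ℕ, q ^ N * x ∈ V := by
    by_cases hx : x ∈ V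
    · exact ⟨0, by simpa using hx⟩
    have x0 : x ≠ 0 := fun e => hx (e ▸ zero_mem V)
    have x1 : x⁻¹ ∈ V := (V.mem_or_inv_mem x).resolve_left hx
    obtain ⟨π, hπ⟩ := IsDiscreteValuationRing.exists_irreducible V
    obtain ⟨N, v, hv⟩ := IsDiscreteValuationRing.eq_unit_mul_pow_irreducible
      (x := (⟨x⁻¹, x1⟩ : V)) (fun e => inv_ne_zero x0 (congrArg Subtype.val e)) hπ
    have : (⟨x⁻¹, x1⟩ : V) ∣ (⟨q, q1⟩ : V) ^ N := by
      rw [hv, Units.mul_left_dvd]
      refine pow_dvd_pow_of_dvd (Ideal.mem_span_singleton.1 ?_) N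
      rw [← hπ.maximalIdeal_eq]
      exact (V.valuation_lt_one_iff _).2 hq
    obtain ⟨z, hz⟩ := this
    have e : q ^ N = x⁻¹ * z := congrArg Subtype.val hz
    refine ⟨N, ?_⟩
    rw [e, mul_right_comm, inv_mul_cancel₀ x0, one_mul]
    exact z.2
  refine ⟨N + 1, fun n hn => ?_⟩
  obtain ⟨k, rfl⟩ := Nat.exists_eq_add_of_le hn
  rw [show q ^ (N + 1 + k) * x = q * (q ^ k * (q ^ N * x)) by ring, map_mul]
  exact mul_lt_one_of_lt_of_le hq ((V.valuation_le_one_iff _).2 (mul_mem (pow_mem q1 k) hN))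

lemma h0_nle {V W : ValuationSubring K} (hV : IsDiscreteValuationRing V)
    (hW : IsDiscreteValuationRing W) (hne : V ≠ W) : ∃ a, a ∈ W ∧ a ∉ V := by
  by_contra h
  have h1 : W ≤ V := fun a ha => by_contra fun k => h ⟨a, ha, k⟩
  obtain ⟨x, x1, x2⟩ : ∃ x, x ∈ V ∧ x ∉ W :=
    by_contra fun k => hne (le_antisymm (fun a ha => by_contra fun k' => k ⟨a, ha, k'⟩) h1)
  have x0 : x ≠ 0 := fun e => x2 (e ▸ zero_mem W)
  obtain ⟨π, p0, p1⟩ := h0_pi hV
  obtain ⟨N, hN⟩ := h0_arch hW ((W.valuation.one_lt_val_iff x0).1 (h0_gt.1 x2)) π⁻¹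
  have a := mul_mem (pow_mem x1 N) (h1 ((W.valuation_le_one_iff _).1 (hN N le_rfl).le))
  rw [← mul_assoc, ← mul_pow, mul_inv_cancel₀ x0, one_pow, one_mul] at a
  refine h0_gt.2 ((V.valuation.one_lt_val_iff (inv_ne_zero p0)).2 ?_) a
  rwa [inv_inv]

lemma h0_sep1 {V W : ValuationSubring K} (hV : IsDiscreteValuationRing V)
    (hW : IsDiscreteValuationRing W) (hne : V ≠ W) :
    ∃ z, 1 < V.valuation z ∧ W.valuation z < 1 := by
  obtain ⟨a, a1, a2⟩ := h0_nle hV hW hne
  obtain ⟨b, b1, b2⟩ := h0_nle hW hV hne.symm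
  have b0 : b ≠ 0 := fun e => b2 (e ▸ zero_mem W)
  refine ⟨a / b, ?_, ?_⟩
  · rw [map_div₀, one_lt_div₀ (V.valuation.pos_iff.2 b0)]
    exact ((V.valuation_le_one_iff _).2 b1).trans_lt (h0_gt.1 a2)
  · rw [map_div₀, div_lt_one₀ (W.valuation.pos_iff.2 b0)]
    exact ((W.valuation_le_one_iff _).2 a1).trans_lt (h0_gt.1 b2)

/-- Approximation. -/
lemma h0_sep {V : ValuationSubring K} (hV : IsDiscreteValuationRing V)
    (s : Finset (ValuationSubring K)) (hs : ∀ W ∈ s, IsDiscreteValuationRing W ∧ V ≠ W) :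
    ∃ z, 1 < V.valuation z ∧ ∀ W ∈ s, W.valuation z < 1 := by
  classical
  induction s using Finset.induction_on with
  | empty =>
    obtain ⟨π, p0, p1⟩ := h0_pi hV
    exact ⟨π⁻¹, (V.valuation.one_lt_val_iff (inv_ne_zero p0)).2 (by rwa [inv_inv]), by simp⟩
  | insert W s _ ih =>
    obtain ⟨y, y1, y2⟩ := ih fun U hU => hs U (mem_insert_of_mem hU)
    obtain ⟨z, z1, z2⟩ := h0_sep1 hV (hs W (mem_insert_self _ _)).1 (hs W (mem_insert_self _ _)).2
    choose N hN using fun U : s => h0_arch (hs U (mem_insert_of_mem U.2)).1 (y2 U U.2) z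
    set n := univ.sup N + 1 with hn
    have n1 : ∀ U ∈ s, U.valuation (y ^ n * z) < 1 := fun U hU =>
      hN ⟨U, hU⟩ n ((le_sup (f := N) (mem_univ _)).trans (Nat.le_succ _))
    by_cases hW : W.valuation y ≤ 1
    · refine ⟨y ^ n * z, ?_, fun U hU => ?_⟩
      · rw [map_mul, map_pow]
        exact z1.trans_le (le_mul_of_one_le_left' (one_le_pow_of_one_le' y1.le n))
      · rcases mem_insert.1 hU with rfl | hU
        · rw [map_mul, map_pow, mul_comm]
          exact mul_lt_one_of_lt_of_le z2 (pow_le_one' hW n)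
        · exact n1 U hU
    · have key : ∀ U : ValuationSubring K, 1 < U.valuation y →
          U.valuation (y ^ n * z / (1 + y ^ n)) = U.valuation z := fun U hU => by
        have a : U.valuation 1 < U.valuation (y ^ n) := by
          rw [map_one, map_pow]
          exact one_lt_pow' hU (Nat.succ_ne_zero _)
        rw [map_div₀, U.valuation.map_add_eq_of_lt_right a, map_mul,
          mul_div_cancel_left₀ _ (zero_le.trans_lt a).ne']
      refine ⟨y ^ n * z / (1 + y ^ n), by rwa [key V y1], fun U hU => ?_⟩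
      rcases mem_insert.1 hU with rfl | hU
      · rwa [key U (not_le.1 hW)]
      · rw [map_div₀, U.valuation.map_one_add_of_lt, div_one]
        · exact n1 U hU
        · rw [map_pow]
          exact pow_lt_one' (y2 U hU) (Nat.succ_ne_zero _)

lemma h0_adj {F : Type} [CommRing F] [Algebra F K] {V : ValuationSubring K} {s : Set K}
    (h1 : ∀ c, algebraMap F K c ∈ V) (h2 : ∀ x ∈ s, x ∈ V) : ∀ x ∈ Algebra.adjoin F s, x ∈ V := by
  intro x hx
  induction hx using Algebra.adjoin_induction with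
  | mem u h => exact h2 u h
  | algebraMap c => exact h1 c
  | add _ _ _ _ a b => exact add_mem a b
  | mul _ _ _ _ a b => exact mul_mem a b

/-- A function that vanishes along `W` and not along `V`. -/
lemma h0_dep {F : Type} [Field F] [Algebra F K] {r : ℕ} {f : Fin (r + 1) → K}
    (hf : IsTranscendenceBasis F f) (R : Subalgebra F K) {V W : ValuationSubring K}
    (hW : IsDiscreteValuationRing W) (hRV : ∀ x ∈ R, x ∈ V) (hRW : ∀ x ∈ R, x ∈ W)
    {y : Fin r → K} {q : K} (hy : ∀ i, y i ∈ R) (hq : q ∈ R)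
    (res : ∀ P : MvPolynomial (Fin r) F, P ≠ 0 → V.valuation (MvPolynomial.aeval y P) = 1)
    (q1 : V.valuation q < 1) (q2 : W.valuation q = 1) :
    ∃ b ∈ R, V.valuation b = 1 ∧ W.valuation b < 1 := by
  have yi : AlgebraicIndependent F y := algebraicIndependent_iff.2 fun P hP => by_contra fun k => by
    have := res P k
    rw [hP, map_zero] at this
    exact zero_ne_one this
  set A := Algebra.adjoin F (Set.range y) with hA
  have AR : A ≤ R := Algebra.adjoin_le (Set.range_subset_iff.2 hy)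
  have unit : ∀ a : A, a ≠ 0 → V.valuation (a : K) = 1 := by
    rintro ⟨a, ha⟩ h0
    have ha' := ha
    rw [hA, Algebra.adjoin_range_eq_range_aeval] at ha'
    obtain ⟨P, rfl⟩ := ha'
    exact res P fun e => h0 (Subtype.ext (by simp [e]))
  have mem : ∀ p : Polynomial A, Polynomial.aeval q p ∈ R := fun p => by
    induction p using Polynomial.induction_on' with
    | add p p' a b => rw [map_add]; exact add_mem a b
    | monomial n a => rw [Polynomial.aeval_monomial]; exact mul_mem (AR a.2) (pow_mem hq n)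
  obtain ⟨p, p0, p1⟩ : ∃ p : Polynomial A, p ≠ 0 ∧ W.valuation (Polynomial.aeval q p) < 1 := by
    by_cases hq' : IsAlgebraic A q
    · obtain ⟨p, p0, p1⟩ := hq'
      exact ⟨p, p0, by rw [p1, map_zero]; exact zero_lt_one⟩
    have i2 := AlgebraicIndependent.option_iff.2 ⟨yi, hq'⟩
    obtain ⟨π, π0, π1⟩ := h0_pi hW
    have alg : IsAlgebraic (Algebra.adjoin F (Set.range fun o : Option (Fin r) => o.elim q y)) π :=
      by_contra fun k => by
        have := (AlgebraicIndependent.option_iff.2 ⟨i2, k⟩).cardinalMk_le_trdeg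
        rw [← hf.cardinalMk_eq_trdeg] at this
        simp only [Cardinal.mk_fintype, Fintype.card_option, Fintype.card_fin,
          Nat.cast_le] at this
        omega
    obtain ⟨z, z1, a, a0, e⟩ :=
      alg.exists_nonzero_eq_adjoin_mul (mem_nonZeroDivisors_of_ne_zero π0)
    have sur : ∀ x ∈ Algebra.adjoin F (Set.range fun o : Option (Fin r) => o.elim q y),
        ∃ p : Polynomial A, Polynomial.aeval q p = x := fun x hx => by
      induction hx using Algebra.adjoin_induction with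
      | mem u h =>
        obtain ⟨_ | i, rfl⟩ := h
        · exact ⟨Polynomial.X, Polynomial.aeval_X _⟩
        · exact ⟨Polynomial.C ⟨y i, Algebra.subset_adjoin ⟨i, rfl⟩⟩, Polynomial.aeval_C _ _⟩
      | algebraMap c => exact ⟨Polynomial.C (algebraMap F A c), Polynomial.aeval_C _ _⟩
      | add _ _ _ _ a b =>
        obtain ⟨p, rfl⟩ := a
        obtain ⟨p', rfl⟩ := b
        exact ⟨p + p', map_add _ _ _⟩
      | mul _ _ _ _ a b =>
        obtain ⟨p, rfl⟩ := a
        obtain ⟨p', rfl⟩ := b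
        exact ⟨p * p', map_mul _ _ _⟩
    have zW : z ∈ W := h0_adj (fun c => by
      obtain ⟨p, hp⟩ := sur c c.2
      exact hRW c (hp ▸ mem p)) (fun x hx => by
        rw [hx]
        exact (W.valuation_le_one_iff _).1 π1.le) z z1
    obtain ⟨p, hp⟩ := sur a a.2
    refine ⟨p, fun k => a0 (Subtype.ext ?_), ?_⟩
    · rw [← hp, k, map_zero]
      rfl
    · rw [hp, show (a : K) = π * z from e.symm, map_mul]
      exact mul_lt_one_of_lt_of_le π1 ((W.valuation_le_one_iff _).2 zW)
  obtain ⟨p', e, hp'⟩ := Polynomial.exists_eq_pow_rootMultiplicity_mul_and_not_dvd p p0 0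
  rw [Polynomial.C_0, sub_zero] at e hp'
  rw [e, map_mul, map_pow, Polynomial.aeval_X, map_mul, map_pow, q2, one_pow, one_mul] at p1
  refine ⟨_, mem p', ?_, p1⟩
  have c1 := unit _ (mt Polynomial.X_dvd_iff.2 hp')
  rw [← p'.divX_mul_X_add, map_add, map_mul, Polynomial.aeval_X, Polynomial.aeval_C]
  refine (V.valuation.map_add_eq_of_lt_right ?_).trans c1
  refine lt_of_lt_of_eq ?_ c1.symm
  rw [map_mul, mul_comm]
  exact mul_lt_one_of_lt_of_le q1 ((V.valuation_le_one_iff _).2 (hRV _ (mem _)))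

lemma h0_wt {M : ℕ} {u : Fin M → K} {j : ℕ} {V : ValuationSubring K} {h : K} {c₀ : Fin M}
    (h0 : u c₀ ≠ 0) (H : h / u c₀ ^ j ∈ V) : Wt u j V h := by
  intro c hc
  have c0 : u c ≠ 0 := V.valuation.pos_iff.1 ((V.valuation.pos_iff.2 h0).trans_le (hc c₀))
  have a : u c₀ / u c ∈ V := by
    rw [← V.valuation_le_one_iff, map_div₀, div_le_one₀ (V.valuation.pos_iff.2 c0)]
    exact hc c₀
  have := mul_mem H (pow_mem a j)
  rwa [div_pow, div_mul_div_cancel₀ (pow_ne_zero j h0)] at this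

end Val

theorem sH0 : SH0 := by
  intro t a M w Θ PP K _ _ u F r lam d f G β V y q l₀ bx hg dv hV hVG
  classical
  have u0 : ∀ o, u (β o) ≠ 0 := fun o => (dv.ch o).2
  obtain ⟨κ, hκ⟩ : ∃ κ : ValuationSubring K → Fin M, ∀ (W : ValuationSubring K) c,
      W.valuation (u c) ≤ W.valuation (u (κ W)) := by
    have : ∀ W : ValuationSubring K, ∃ c₀, ∀ c, W.valuation (u c) ≤ W.valuation (u c₀) := fun W => by
      obtain ⟨c₀, -, h⟩ := exists_max_image univ (fun c => W.valuation (u c)) ⟨β none, mem_univ _⟩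
      exact ⟨c₀, fun c => h c (mem_univ c)⟩
    exact ⟨fun W => (this W).choose, fun W => (this W).choose_spec⟩
  have k0 : ∀ W, u (κ W) ≠ 0 := fun W =>
    W.valuation.pos_iff.1 ((W.valuation.pos_iff.2 (u0 none)).trans_le (hκ W _))
  have k1 : ∀ W c, u c / u (κ W) ∈ W := fun W c => by
    rw [← W.valuation_le_one_iff, map_div₀, div_le_one₀ (W.valuation.pos_iff.2 (k0 W))]
    exact hκ W c
  set ε : Fin M → K := fun c => ∏ o, u (β o) / u c with hε
  have e1 : ∀ W, ε (κ W) ∈ W := fun W => prod_mem fun o _ => k1 W _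
  have gen : ∀ W x, co β u x * ε (κ W) ∈ W := fun W x => by
    have : co β u x * ε (κ W) =
        u x.1 / u (κ W) * ∏ o ∈ univ.erase x.2, u (β o) / u (κ W) := by
      simp only [hε, co]
      rw [← mul_prod_erase univ _ (mem_univ x.2), ← mul_assoc, div_mul_div_cancel₀ (u0 _)]
    rw [this]
    exact mul_mem (k1 W _) (prod_mem fun o _ => k1 W _)
  have up : ∀ W (b : K) (N N' : ℕ), b * ε (κ W) ^ N ∈ W → b * ε (κ W) ^ (N + N') ∈ W :=
    fun W b N N' h => by
      rw [pow_add, ← mul_assoc]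
      exact mul_mem h (pow_mem (e1 W) N')
  have hom : ∀ b ∈ RF F (co β u), ∃ N : ℕ, ∀ W ∈ G, b * ε (κ W) ^ N ∈ W := fun b hb => by
    induction hb using Algebra.adjoin_induction with
    | mem z h =>
      obtain ⟨x, rfl⟩ := h
      exact ⟨1, fun W _ => by rw [pow_one]; exact gen W x⟩
    | algebraMap c => exact ⟨0, fun W hW => by rw [pow_zero, mul_one]; exact hg.fV W hW _ c.2⟩
    | add _ _ _ _ h h' =>
      obtain ⟨N, h⟩ := h
      obtain ⟨N', h'⟩ := h'
      refine ⟨N + N', fun W hW => ?_⟩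
      rw [add_mul]
      exact add_mem (up W _ N N' (h W hW)) (add_comm N' N ▸ up W _ N' N (h' W hW))
    | mul _ _ _ _ h h' =>
      obtain ⟨N, h⟩ := h
      obtain ⟨N', h'⟩ := h'
      refine ⟨N + N', fun W hW => ?_⟩
      rw [pow_add, mul_mul_mul_comm]
      exact mul_mem (h W hW) (h' W hW)
  have RV : ∀ x ∈ RF F (co β u), x ∈ V :=
    h0_adj (fun c => dv.fV _ c.2) (by rintro _ ⟨x, rfl⟩; exact dv.cV x)
  have q0 : q ≠ 0 := fun e => by
    have := dv.tr
    rw [e, map_zero, map_zero] at this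
    exact zero_ne_one this
  have kill : ∀ W ∈ G, q⁻¹ ∈ W → ∃ (b : K) (N : ℕ), V.valuation b = 1 ∧
      (∀ U ∈ G, b * ε (κ U) ^ N ∈ U) ∧ W.valuation (b * ε (κ W) ^ N) < 1 := by
    intro W hW hq
    rcases ((W.valuation_le_one_iff _).2 (e1 W)).eq_or_lt with e | e
    · have RW : ∀ x ∈ RF F (co β u), x ∈ W := h0_adj (fun c => hg.fV W hW _ c.2) (by
        rintro _ ⟨x, rfl⟩
        have := (W.valuation_le_one_iff _).2 (gen W x)
        rwa [map_mul, e, mul_one, W.valuation_le_one_iff] at this)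
      obtain ⟨b, b1, b2, b3⟩ := h0_dep bx.tb (RF F (co β u)) (hg.dvr W hW) RV RW
        (y := co β u ∘ y) (fun i => Algebra.subset_adjoin ⟨y i, rfl⟩) dv.mem dv.res dv.lt
        (le_antisymm ((W.valuation_le_one_iff _).2 (RW q dv.mem))
          ((W.valuation.one_le_val_iff q0).2 ((W.valuation_le_one_iff _).2 hq)))
      obtain ⟨N, hN⟩ := hom b b1
      exact ⟨b, N, b2, hN, by rwa [map_mul, map_pow, e, one_pow, mul_one]⟩
    · exact ⟨1, 1, map_one _, fun U _ => by rw [pow_one, one_mul]; exact e1 U,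
        by rwa [pow_one, one_mul]⟩
  obtain ⟨z, z1, z2⟩ := h0_sep hV (hg.fin q⁻¹).toFinset fun W hW => by
    have h := (Set.Finite.mem_toFinset _).1 hW
    exact ⟨hg.dvr W h.1, fun e => hVG (e ▸ h.1)⟩
  have key : ∀ s : Finset (ValuationSubring K), (∀ W ∈ s, W ∈ G ∧ q⁻¹ ∈ W) →
      ∃ (b : K) (N : ℕ), V.valuation b = 1 ∧ (∀ U ∈ G, b * ε (κ U) ^ N ∈ U) ∧
        ∀ W ∈ s, z * (b * ε (κ W) ^ N) ∈ W := fun s => by
    induction s using Finset.induction_on with
    | empty => exact fun _ => ⟨1, 0, map_one _, fun U _ => by simp, by simp⟩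
    | insert W s _ ih =>
      intro hs
      obtain ⟨b, N, b1, b2, b3⟩ := ih fun U hU => hs U (mem_insert_of_mem hU)
      obtain ⟨w1, w2⟩ := hs W (mem_insert_self _ _)
      obtain ⟨b', N', c1, c2, c3⟩ := kill W w1 w2
      obtain ⟨n, hn⟩ := h0_arch (hg.dvr W w1) c3 z
      have e : ∀ U, b * b' ^ n * ε (κ U) ^ (N + N' * n) =
          b * ε (κ U) ^ N * (b' * ε (κ U) ^ N') ^ n := fun U => by ring
      refine ⟨b * b' ^ n, N + N' * n, by rw [map_mul, map_pow, b1, c1, one_pow, one_mul],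
        fun U hU => ?_, fun U hU => ?_⟩
      · rw [e]
        exact mul_mem (b2 U hU) (pow_mem (c2 U hU) n)
      · rw [e]
        rcases mem_insert.1 hU with rfl | hU'
        · rw [mul_left_comm, mul_comm z]
          exact mul_mem (b2 U w1) ((U.valuation_le_one_iff _).1 (hn n le_rfl).le)
        · rw [← mul_assoc]
          exact mul_mem (b3 U hU') (pow_mem (c2 U (hs U hU).1) n)
  obtain ⟨b, N, b1, b2, b3⟩ := key (hg.fin z).toFinset fun W hW => by
    have h := (Set.Finite.mem_toFinset _).1 hW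
    exact ⟨h.1, by_contra fun k => h.2 ((W.valuation_le_one_iff _).1
      (z2 W ((Set.Finite.mem_toFinset _).2 ⟨h.1, k⟩)).le)⟩
  have e : ∀ c, z * b * (∏ o, u (β o)) ^ N / u c ^ (Fintype.card (Option (Fin t)) * N) =
      z * (b * ε c ^ N) := fun c => by
    simp only [hε]
    rw [prod_div_distrib, prod_const, card_univ, div_pow, pow_mul, mul_div_assoc, mul_assoc]
  have eV : V.valuation (ε (β none)) = 1 := by
    simp only [hε, map_prod]
    refine prod_eq_one fun o _ => le_antisymm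
      ((V.valuation_le_one_iff _).2 (dv.cV (β o, none))) ?_
    rw [V.valuation.one_le_val_iff (div_ne_zero (u0 o) (u0 none)), inv_div,
      V.valuation_le_one_iff]
    exact dv.cV (β none, o)
  refine ⟨Fintype.card (Option (Fin t)) * N, z * b * (∏ o, u (β o)) ^ N, ?_, fun W hW => ?_⟩
  · rwa [e, map_mul, map_mul, map_pow, eV, b1, one_pow, mul_one, mul_one]
  · refine h0_wt (k0 W) ?_
    rw [e]
    by_cases h : z ∈ W
    · exact mul_mem h (b2 W hW)
    · exact b3 W ((Set.Finite.mem_toFinset _).2 ⟨hW, h⟩)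

end Pool.Agent.MP_c69980_ag.H43
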