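import Pool.Agent.MP_c69980_ag.H43.Spec10
import Pool.Agent.MP_c69980_ag.S74.GKk

/-!
Differential simplicity over abstract fields, by transfer to the complex numbers.
-/

set_option autoImplicit false

namespace Pool.Agent.MP_c69980_ag.H43

open MvPolynomial H60 Finset

theorem sGDs (h1 : SDown) (h2 : SDs) : SGDs := by
  intro t a M w Θ PP K _ _ u F D g β hE hu hg hv hF hβ I hI
  obtain ⟨k, kc, G⟩ := hE.exists
  rw [or_iff_not_imp_left]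
  intro h0
  obtain ⟨x, xI, x0⟩ := I.ne_bot_iff.1 h0
  obtain ⟨P, hP⟩ := (Algebra.adjoin_range_eq_range_aeval F (co β u)).le x.2
  obtain ⟨Ω₀, φ, E, p, c0, hT, a1, a2, a3, a4⟩ := h1 t a M w Θ k K Unit Unit
    (fun _ => D.restrictScalars ℤ) (fun _ => u)
    (Set.range g ∪ Set.range fun m => ((coeff m P : F) : K)) kc G.clh
    (fun _ c _ => D.map_algebraMap c) (fun _ => hu)
    ((Set.countable_range _).union (Set.countable_range _))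
  have hD : ∀ x z, GKkR φ x z → GKkR φ (D x) (E () z) := by
    rintro x z ⟨h, rfl⟩
    obtain ⟨h', e⟩ := a3 () ⟨x, h⟩
    exact ⟨h', e.symm⟩
  have hp : GKkP Θ k φ u (p ()) := ⟨a1, a4 ()⟩
  let F₀ : Subfield ℂ := (F.toSubfield.comap Ω₀.subtype).map φ
  have m0 : ∀ x z, x ∈ F → GKkR φ x z → z ∈ F₀ := fun x z h ⟨h', e⟩ => ⟨⟨x, h'⟩, h, e⟩
  have mg : ∀ i, GKkR φ (g i) (φ ⟨g i, hT (Or.inl ⟨i, rfl⟩)⟩) := fun i => ⟨_, rfl⟩
  have cx : Ctx Θ k F₀ (E ()) (p ()) fun i => φ ⟨g i, hT (Or.inl ⟨i, rfl⟩)⟩ := by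
    refine ⟨fun c hc => m0 _ _ (F.algebraMap_mem c) (a1 c hc), ?_, a2 _, ?_,
      fun i => m0 _ _ (hg i) (mg i), hp.tan G mg hD hβ (hv β hβ), fun z hz e => ?_⟩
    · exact Set.countable_coe_iff.2 ((Set.countable_range φ).mono (Set.image_subset_range _ _))
    · rintro _ ⟨x, hx, rfl⟩
      exact m0 _ _ (((hF x).1 hx).symm ▸ zero_mem F) (hD x _ ⟨x.2, rfl⟩)
    · obtain ⟨x, rfl⟩ := FL_le (F := F₀) (F' := φ.fieldRange) (fun _ ⟨x, _, e⟩ => ⟨x, e⟩)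
        (fun _ ⟨c, b, e⟩ => e ▸ (hp.pt c b).mem) hz
      exact ⟨x, (hF _).2 ((hD x _ ⟨x.2, rfl⟩).inj (e ▸ GKkR.zero)), rfl⟩
  have up : ∀ z : RA F₀ (co β (Θ (p ()))), ∃ x : RF F (co β u), GKkR φ x z := fun z => by
    obtain ⟨x, hx, e⟩ := RA_le (k := F₀) (S := ((RF F (co β u)).toSubring.comap Ω₀.subtype).map φ)
      (fun _ ⟨x, hx, e⟩ => ⟨x, (RF F (co β u)).algebraMap_mem ⟨x, hx⟩, e⟩)
      (fun i => let ⟨h, e⟩ := hp.pt i.1 (β i.2); ⟨⟨_, h⟩, Algebra.subset_adjoin ⟨i, rfl⟩, e⟩) _ z.2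
    exact ⟨⟨x, hx⟩, x.2, e⟩
  let J : Ideal (RA F₀ (co β (Θ (p ())))) :=
    { carrier := {z | ∃ x ∈ I, GKkR φ (x : K) z}
      add_mem' := fun ⟨x, h, e⟩ ⟨x', h', e'⟩ => ⟨_, add_mem h h', e.add e'⟩
      zero_mem' := ⟨0, zero_mem _, GKkR.zero⟩
      smul_mem' := fun c _ ⟨x, h, e⟩ => let ⟨y, e'⟩ := up c; ⟨_, I.mul_mem_left y h, e'.mul e⟩ }
  rcases h2 t a M w Θ PP k F₀ _ _ _ G cx β (hp.ch hβ) J (by
    rintro _ rfl z ⟨x, h, e⟩ y e'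
    obtain ⟨x', e''⟩ := up y
    exact ⟨x', hI x h x' (e''.inj (e' ▸ hD _ _ e)), e''⟩) with e | e
  · have : (x : K) ∈ ((RA F₀ (co β (Θ (p ())))).toSubring.comap φ).map Ω₀.subtype := by
      rw [← hP]
      change aeval _ P ∈ _
      rw [aeval_def, eval₂_eq]
      refine sum_mem fun m _ => mul_mem ?_ (prod_mem fun i _ => pow_mem ?_ _)
      · have h := hT (Or.inr ⟨m, rfl⟩)
        exact ⟨⟨_, h⟩, (RA F₀ _).algebraMap_mem ⟨_, m0 _ _ (coeff m P).2 ⟨h, rfl⟩⟩, rfl⟩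
      · obtain ⟨h, e⟩ := hp.pt i.1 (β i.2)
        exact ⟨⟨_, h⟩, show φ _ ∈ RA F₀ _ from e ▸ gen_mem _ i, rfl⟩
    obtain ⟨y, hy, e'⟩ := this
    have r : GKkR φ (x : K) (φ y) := e' ▸ ⟨y.2, rfl⟩
    have : (⟨φ y, hy⟩ : RA F₀ _) ∈ J := ⟨x, xI, r⟩
    rw [e, Ideal.mem_bot, Subtype.ext_iff] at this
    exact absurd (Subtype.ext (r.inj ((show φ y = 0 from this).symm ▸ GKkR.zero))) x0
  · obtain ⟨y, hy, r⟩ : (1 : RA F₀ _) ∈ J := e ▸ Submodule.mem_top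
    have : y = 1 := Subtype.ext (r.inj ⟨one_mem _, map_one φ⟩)
    exact (Ideal.eq_top_iff_one I).2 (this ▸ hy)

end Pool.Agent.MP_c69980_ag.H43
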